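import Pool.Agent.Helper95.AG.Defs
import Pool.Agent.Helper33.AF.Rec

/-! # Project AG: the mean of the functional -/

set_option autoImplicit false
open MeasureTheory Real Set Filter Topology
open scoped ENNReal

namespace Pool.Agent.Helper33.AG

open Pool.Agent.Helper46.QP (TT Td)
open Pool.Agent.Helper82.AN (Ik Ow lawL sq)
open Pool.Agent.Helper95.AF (shb)
open Pool.Agent.Helper95.AG
open Pool.Agent.Helper33.AF (shb_sq measurable_sq)

variable {d : ℕ}

lemma et_pos {h : ℝ} (hh : 0 < h) (i : ℕ) : 0 < et h i := by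
  unfold et
  positivity

/-- One level. -/
lemma level_step {h P : ℝ} (hh : 0 < h) {α : Td d} {a L : ℝ} {b : Td d → ℝ} (hb : Continuous b)
    (hL : 0 < L) {n J : ℕ} (i : ℕ)
    (h1 : volume.real {θ | sq α b θ ∈ EvS h P a L i n J 0} ≤ et h (i + 1)) :
    J * (∫ θ, Rl h P a L i n (sq α b θ)) - et h i * (J * (n + 5) : ℕ) * L -
      et h (i + 1) * (2 * (J * (n + 5) : ℕ) * L) ≤
        ∫ θ, Rl h P a L (i + 1) (J * (n + 5)) (sq α b θ) := by
  have hmeas : ∀ (i n : ℕ), Measurable fun θ : Td d => Rl h P a L i n (sq α b θ) := fun i n =>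
    (Pool.Agent.Helper4.AF.rr_meas a n (by positivity) (by positivity)).comp (measurable_sq hb)
  have hR : ∀ (i n : ℕ) (c : ℕ → ℝ), 0 ≤ Rl h P a L i n c ∧ Rl h P a L i n c ≤ 2 * n * L :=
      fun i n c => by
    have h := Pool.Agent.Helper6.AF.rr_mem (a := a) (n := n)
      (ρ := Real.exp (-(pp h P i * n * L)))
      (δ := Real.exp (-(2 * pp h P i * n * L))) (cap := 2 * n * L) (by positivity)
      (by positivity) c
    exact ⟨h.1, h.2.1⟩
  have hint : ∀ (i n : ℕ), Integrable (fun θ : Td d => Rl h P a L i n (sq α b θ)) volume :=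
    fun i n => Integrable.of_bound (hmeas i n).aestronglyMeasurable (2 * n * L)
      (ae_of_all _ fun θ => by
        rw [Real.norm_eq_abs, abs_of_nonneg (hR i n _).1]
        exact (hR i n _).2)
  have hshift : ∀ m : ℕ, ∫ θ, Rl h P a L i n (sq α b (θ + m • α)) =
      ∫ θ, Rl h P a L i n (sq α b θ) :=
    fun m => integral_add_right_eq_self (μ := (volume : Measure (Td d)))
      (fun θ => Rl h P a L i n (sq α b θ)) (m • α)
  have hintm : ∀ m : ℕ, Integrable (fun θ : Td d => Rl h P a L i n (sq α b (θ + m • α))) volume :=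
    fun m => (hint i n).comp_add_right (m • α)
  set S : Set (Td d) := {θ | sq α b θ ∈ EvS h P a L i n J 0} with hS
  set N : ℕ := J * (n + 5) with hN
  have hsum : ∀ θ : Td d,
      (∑ j ∈ Finset.range J, Rl h P a L i n (shb (sq α b θ) (j * (n + 5) + 5))) =
      ∑ j ∈ Finset.range J, Rl h P a L i n (sq α b (θ + (j * (n + 5) + 5) • α)) := fun θ =>
    Finset.sum_congr rfl fun j _ => by rw [shb_sq]
  have hSm : MeasurableSet S := by
    have h2 : S = {θ | Rl h P a L (i + 1) N (sq α b θ) <
        (∑ j ∈ Finset.range J, Rl h P a L i n (sq α b (θ + (j * (n + 5) + 5) • α))) -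
          et h i * (N : ℕ) * L - 0} := by
      ext θ
      change Rl h P a L (i + 1) N (sq α b θ) <
          (∑ j ∈ Finset.range J, Rl h P a L i n (shb (sq α b θ) (j * (n + 5) + 5))) -
            et h i * (N : ℕ) * L - 0 ↔ _
      rw [hsum]
      rfl
    rw [h2]
    refine measurableSet_lt (hmeas _ _) ?_
    refine ((Finset.measurable_sum _ fun j _ => ?_).sub_const _).sub_const _
    exact (hmeas i n).comp (measurable_add_const _)
  -- pointwise
  have hpt : ∀ θ : Td d,
      (∑ j ∈ Finset.range J, Rl h P a L i n (sq α b (θ + (j * (n + 5) + 5) • α))) -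
      et h i * (N : ℕ) * L - S.indicator (fun _ => 2 * (N : ℝ) * L) θ ≤
        Rl h P a L (i + 1) N (sq α b θ) := by
    intro θ
    have het := et_pos hh i
    by_cases hθ : θ ∈ S
    · rw [Set.indicator_of_mem hθ]
      have h2 : (∑ j ∈ Finset.range J, Rl h P a L i n (sq α b (θ + (j * (n + 5) + 5) • α))) ≤
          2 * (N : ℝ) * L := by
        calc (∑ j ∈ Finset.range J, Rl h P a L i n (sq α b (θ + (j * (n + 5) + 5) • α)))
            ≤ ∑ _j ∈ Finset.range J, 2 * (n : ℝ) * L := Finset.sum_le_sum fun j _ => (hR i n _).2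
          _ = J * (2 * (n : ℝ) * L) := by simp
          _ ≤ 2 * (N : ℝ) * L := by
              rw [hN]
              push_cast
              have : 0 ≤ (J : ℝ) * L := by positivity
              nlinarith
      have h3 := (hR (i + 1) N (sq α b θ)).1
      have h4 : 0 ≤ et h i * (N : ℕ) * L := by positivity
      linarith
    · rw [Set.indicator_of_notMem hθ]
      have h2 : ¬ Rl h P a L (i + 1) N (sq α b θ) <
          (∑ j ∈ Finset.range J, Rl h P a L i n (shb (sq α b θ) (j * (n + 5) + 5))) -
            et h i * (N : ℕ) * L - 0 := hθ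
      rw [hsum, not_lt] at h2
      linarith
  have hli : Integrable (fun θ : Td d =>
      (∑ j ∈ Finset.range J, Rl h P a L i n (sq α b (θ + (j * (n + 5) + 5) • α))) -
        et h i * (N : ℕ) * L - S.indicator (fun _ => 2 * (N : ℝ) * L) θ) volume :=
    ((integrable_finsetSum _ fun j _ => hintm _).sub (integrable_const _)).sub
      ((integrable_const _).indicator hSm)
  have h5 := integral_mono hli (hint (i + 1) N) hpt
  have h6 : ∫ θ : Td d,
      ((∑ j ∈ Finset.range J, Rl h P a L i n (sq α b (θ + (j * (n + 5) + 5) • α))) -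
      et h i * (N : ℕ) * L - S.indicator (fun _ => 2 * (N : ℝ) * L) θ) =
      J * (∫ θ, Rl h P a L i n (sq α b θ)) - et h i * N * L - volume.real S * (2 * N * L) := by
    have g1 : Integrable (fun θ : Td d => ∑ j ∈ Finset.range J,
        Rl h P a L i n (sq α b (θ + (j * (n + 5) + 5) • α))) volume :=
      integrable_finsetSum _ fun j _ => hintm _
    have g2 : Integrable (fun θ : Td d => (∑ j ∈ Finset.range J,
        Rl h P a L i n (sq α b (θ + (j * (n + 5) + 5) • α))) - et h i * (N : ℕ) * L) volume :=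
      g1.sub (integrable_const _)
    rw [integral_sub g2 ((integrable_const _).indicator hSm),
      integral_sub g1 (integrable_const _),
      integral_finsetSum _ fun j _ => hintm _, integral_indicator hSm]
    simp only [hshift, Finset.sum_const, Finset.card_range, nsmul_eq_mul, integral_const,
      smul_eq_mul, probReal_univ, one_mul, measureReal_restrict_apply_univ]
  rw [h6] at h5
  refine le_trans ?_ h5
  have h7 : volume.real S * (2 * N * L) ≤ et h (i + 1) * (2 * (N : ℝ) * L) :=
    mul_le_mul_of_nonneg_right h1 (by positivity)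
  linarith

/-- **REC'** -/
theorem rec_mean {h P : ℝ} (hh : 0 < h) (hh1 : h ≤ 1 / 200) (hP : 0 < P) (hP1 : P ≤ h / 100)
    {α : Td d} {a L : ℝ} {b : Td d → ℝ}
    (hb : Continuous b) (hL : 0 < L) {n J : ℕ → ℕ}
    (hn : ∀ i, 1 ≤ J i ∧ n (i + 1) = J i * (n i + 5)) (hn0 : ∀ i, (50 * 2 ^ i / h : ℝ) ≤ n i)
    (h0 : volume.real {θ | sq α b θ ∈ Ev0 h P a L (n 0) 0} ≤ et h 0)
    (h1 : ∀ i, volume.real {θ | sq α b θ ∈ EvS h P a L i (n i) (J i) 0} ≤ et h (i + 1)) (i : ℕ) :
    (1 - 8 * h) * n i * L ≤ ∫ θ, Rl h P a L i (n i) (sq α b θ) := by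
  have hmeas : ∀ (i n : ℕ), Measurable fun θ : Td d => Rl h P a L i n (sq α b θ) := fun i n =>
    (Pool.Agent.Helper4.AF.rr_meas a n (by positivity) (by positivity)).comp (measurable_sq hb)
  have hR : ∀ (i n : ℕ) (c : ℕ → ℝ), 0 ≤ Rl h P a L i n c ∧ Rl h P a L i n c ≤ 2 * n * L :=
      fun i n c => by
    have h := Pool.Agent.Helper6.AF.rr_mem (a := a) (n := n)
      (ρ := Real.exp (-(pp h P i * n * L)))
      (δ := Real.exp (-(2 * pp h P i * n * L))) (cap := 2 * n * L) (by positivity)
      (by positivity) c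
    exact ⟨h.1, h.2.1⟩
  have hint : ∀ (i n : ℕ), Integrable (fun θ : Td d => Rl h P a L i n (sq α b θ)) volume :=
    fun i n => Integrable.of_bound (hmeas i n).aestronglyMeasurable (2 * n * L)
      (ae_of_all _ fun θ => by
        rw [Real.norm_eq_abs, abs_of_nonneg (hR i n _).1]
        exact (hR i n _).2)
  have hnpos : ∀ i, (0 : ℝ) < n i := fun i => lt_of_lt_of_le (by positivity) (hn0 i)
  have het : et h 0 = h := by
    unfold et
    norm_num
  -- the base level
  have hbase : (1 - h) ^ 2 * (n 0 : ℝ) * L ≤ ∫ θ, Rl h P a L 0 (n 0) (sq α b θ) := by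
    set S : Set (Td d) := {θ | sq α b θ ∈ Ev0 h P a L (n 0) 0} with hS
    have hSm : MeasurableSet S := by
      have h2 : S = {θ | Rl h P a L 0 (n 0) (sq α b θ) < (1 - et h 0) * n 0 * L - 0} := rfl
      rw [h2]
      exact measurableSet_lt (hmeas _ _) measurable_const
    have hpt : ∀ θ : Td d, (1 - h) * (n 0 : ℝ) * L - S.indicator (fun _ =>
        (1 - h) * (n 0 : ℝ) * L) θ ≤ Rl h P a L 0 (n 0) (sq α b θ) := by
      intro θ
      by_cases hθ : θ ∈ S
      · rw [Set.indicator_of_mem hθ, sub_self]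
        exact (hR _ _ _).1
      · rw [Set.indicator_of_notMem hθ]
        have h2 : ¬ Rl h P a L 0 (n 0) (sq α b θ) < (1 - et h 0) * n 0 * L - 0 := hθ
        rw [not_lt, het] at h2
        linarith
    have h5 : ∫ θ : Td d, ((1 - h) * (n 0 : ℝ) * L - S.indicator (fun _ =>
        (1 - h) * (n 0 : ℝ) * L) θ) ≤ ∫ θ, Rl h P a L 0 (n 0) (sq α b θ) :=
      integral_mono ((integrable_const _).sub ((integrable_const _).indicator hSm))
        (hint 0 (n 0)) hpt
    have h6 : ∫ θ : Td d, ((1 - h) * (n 0 : ℝ) * L - S.indicator (fun _ =>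
        (1 - h) * (n 0 : ℝ) * L) θ) =
        (1 - h) * (n 0 : ℝ) * L - volume.real S * ((1 - h) * (n 0 : ℝ) * L) := by
      rw [integral_sub (integrable_const _) ((integrable_const _).indicator hSm),
        integral_indicator hSm]
      simp only [integral_const, smul_eq_mul, probReal_univ, one_mul,
        measureReal_restrict_apply_univ]
    rw [h6] at h5
    refine le_trans ?_ h5
    have h8 : 0 ≤ (1 - h) * (n 0 : ℝ) * L := by
      have := hnpos 0
      have h9 : 0 ≤ 1 - h := by linarith
      positivity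
    rw [het] at h0
    nlinarith [mul_le_mul_of_nonneg_right h0 h8]
  -- all levels
  have key : ∀ i, (1 - 2 * h - 5 * h * (1 - 1 / 2 ^ i)) * (n i : ℝ) * L ≤
      ∫ θ, Rl h P a L i (n i) (sq α b θ) := by
    intro i
    induction i with
    | zero =>
      refine le_trans ?_ hbase
      have h2 : 0 ≤ (n 0 : ℝ) * L := by
        have := hnpos 0
        positivity
      have h3 : 1 - 2 * h - 5 * h * (1 - 1 / 2 ^ 0) ≤ (1 - h) ^ 2 := by
        norm_num
        nlinarith [sq_nonneg h]
      calc (1 - 2 * h - 5 * h * (1 - 1 / 2 ^ 0)) * (n 0 : ℝ) * L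
          = (1 - 2 * h - 5 * h * (1 - 1 / 2 ^ 0)) * ((n 0 : ℝ) * L) := by ring
        _ ≤ (1 - h) ^ 2 * ((n 0 : ℝ) * L) := mul_le_mul_of_nonneg_right h3 h2
        _ = (1 - h) ^ 2 * (n 0 : ℝ) * L := by ring
    | succ i ih =>
      have h2 := level_step hh hb hL i (h1 i)
      rw [← (hn i).2] at h2
      refine le_trans ?_ h2
      have hJ : ((n (i + 1) : ℕ) : ℝ) = J i * (n i + 5) := by
        rw [(hn i).2]
        push_cast
        ring
      have hJ1 : (1 : ℝ) ≤ J i := by exact_mod_cast (hn i).1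
      set I := ∫ θ, Rl h P a L i (n i) (sq α b θ) with hI
      set t : ℝ := 1 / 2 ^ i with ht
      have ht0 : 0 < t := by positivity
      have ht1 : t ≤ 1 := by
        rw [ht, div_le_one (by positivity)]
        exact one_le_pow₀ (by norm_num)
      have e3 : et h i = h * t := by
        rw [et, ht]
        field_simp
      have e4 : et h (i + 1) = h * t / 2 := by
        rw [et, ht, pow_succ]
        field_simp
      have e5 : (1 : ℝ) / 2 ^ (i + 1) = t / 2 := by
        rw [ht, pow_succ]
        field_simp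
      have e6 : 50 ≤ h * t * n i := by
        have h3 := hn0 i
        rw [div_le_iff₀ hh] at h3
        have h4 : (2 : ℝ) ^ i * t = 1 := by
          rw [ht]
          field_simp
        have h5 := mul_le_mul_of_nonneg_right h3 ht0.le
        calc (50 : ℝ) = 50 * 2 ^ i * t := by rw [mul_assoc, h4, mul_one]
          _ ≤ n i * h * t := h5
          _ = h * t * n i := by ring
      rw [e3, e4, e5, hJ]
      have hni := hnpos i
      have h4 : (1 - 2 * h - 5 * h * (1 - t / 2)) * ((n i : ℝ) + 5) * L ≤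
          I - h * t * (n i + 5) * L - h * t / 2 * (2 * (n i + 5) * L) := by
        have h5 : 50 * L ≤ h * t * n i * L := mul_le_mul_of_nonneg_right e6 hL.le
        have h7 : 0 ≤ h * t * L := by positivity
        have h8 : 0 ≤ h * L := by positivity
        have h9 : h * t * L ≤ h * L := by
          have := mul_le_mul_of_nonneg_left ht1 h8
          linarith
        -- both sides expanded
        have h10 : (1 - 2 * h - 5 * h * (1 - t / 2)) * ((n i : ℝ) + 5) * L =
            (1 - 2 * h - 5 * h * (1 - t)) * (n i : ℝ) * L + 5 * L - 35 * (h * L) +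
              25 / 2 * (h * t * L) - 5 / 2 * (h * t * n i * L) := by ring
        have h11 : I - h * t * (n i + 5) * L - h * t / 2 * (2 * (n i + 5) * L) =
            I - 2 * (h * t * n i * L) - 10 * (h * t * L) := by ring
        rw [h10, h11]
        linarith
      have h7 := mul_le_mul_of_nonneg_left h4 (by positivity : (0 : ℝ) ≤ J i)
      calc (1 - 2 * h - 5 * h * (1 - t / 2)) * ((J i : ℝ) * (n i + 5)) * L
          = J i * ((1 - 2 * h - 5 * h * (1 - t / 2)) * ((n i : ℝ) + 5) * L) := by ring
        _ ≤ J i * (I - h * t * (n i + 5) * L - h * t / 2 * (2 * (n i + 5) * L)) := h7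
        _ = _ := by ring
  refine le_trans ?_ (key i)
  have h2 : (0 : ℝ) < 1 / 2 ^ i := by positivity
  have h3 : 0 ≤ (n i : ℝ) * L := by
    have := hnpos i
    positivity
  have h4 : 0 ≤ h * (1 / 2 ^ i) := by positivity
  calc (1 - 8 * h) * (n i : ℝ) * L = (1 - 8 * h) * ((n i : ℝ) * L) := by ring
    _ ≤ (1 - 2 * h - 5 * h * (1 - 1 / 2 ^ i)) * ((n i : ℝ) * L) :=
        mul_le_mul_of_nonneg_right (by linarith) h3
    _ = _ := by ring

end Pool.Agent.Helper33.AG
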